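import Pool.Agent.MNT.StmtsG

/-!
# Squad MNT, row TH3: bounded orders for split curves
-/

set_option autoImplicit false

namespace Pool.Agent.MNT.H38

open Polynomial NumberField
open scoped Classical

theorem rr_card (g : ℕ) : (RR g).card = 2 * g + 1 := by
  have h : RR g = Finset.univ.map (Function.Embedding.inl) := by
    ext p
    cases p <;> simp [RR]
  rw [h, Finset.card_map, Finset.card_univ, Fintype.card_fin]

theorem ff_deg {E P : Type} [Field E] (e : E) (he : e ≠ 0) (R : Finset P) (z : P → E) :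
    (FF e R z).natDegree = R.card := by
  unfold FF
  rw [natDegree_C_mul he, natDegree_finsetProd_X_sub_C_eq_card]

theorem ff_map {E E' P : Type} [Field E] [Field E'] (φ : E →+* E') (e : E) (R : Finset P)
    (z : P → E) : (FF e R z).map φ = FF (φ e) R (fun p => φ (z p)) := by
  unfold FF
  rw [Polynomial.map_mul, Polynomial.map_C, Polynomial.map_prod]
  simp

theorem th3 (th2 : Th2Stmt) (bch : BchStmt) (aff : AffStmt) : Th3Stmt := by
  intro g hg d
  obtain ⟨S, hS⟩ := th2 g hg d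
  have hex : ∀ (s : PP g → AlgebraicClosure ℚ) (x : PP g), ∃ t : AlgebraicClosure ℚ,
      t ^ 2 = (FF 1 (RR g) s).eval (s x) := fun s x =>
    IsAlgClosed.exists_pow_nat_eq _ (by norm_num)
  choose t ht using hex
  let o : (PP g → AlgebraicClosure ℚ) → PP g → ℕ := fun s x =>
    if h : ∃ N, TorB (FF 1 (RR g) s) (s x) (t s x) N then Nat.find h else 0
  refine ⟨S.sup (fun s => Finset.univ.sup (fun x => o s x)), ?_⟩
  intro K _ _ hK z e y hC x hx
  obtain ⟨φ⟩ : Nonempty (K →+* AlgebraicClosure ℚ) :=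
    ⟨(IsAlgClosed.lift : K →ₐ[ℚ] AlgebraicClosure ℚ).toRingHom⟩
  obtain ⟨s, hs, μ, ν, hμ, hsz⟩ := hS K hK z e y hC φ
  have hφe : φ e ≠ 0 := (map_ne_zero φ).2 hC.e_ne
  have hodd : Odd (FF e (RR g) z).natDegree := by
    rw [ff_deg e hC.e_ne, rr_card]
    exact ⟨g, rfl⟩
  have hmap := ff_map φ e (RR g) z
  have hy : (φ (y x)) ^ 2 = (FF (φ e) (RR g) (fun p => φ (z p))).eval (φ (z x)) := by
    rw [← map_pow, hC.pt x hx, ← hmap, Polynomial.eval_map, Polynomial.eval₂_hom]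
  obtain ⟨N₀, hN₀⟩ := hC.tor x hx
  have h1 := (bch K (AlgebraicClosure ℚ) φ _ (z x) (y x) N₀ hodd).1 hN₀
  rw [hmap] at h1
  have h2 := aff g (AlgebraicClosure ℚ) (fun p => φ (z p)) s (φ e) 1 μ ν hφe one_ne_zero hμ hsz x
    (φ (y x)) (t s x) N₀ hy (ht s x) h1
  have hexN : ∃ N, TorB (FF 1 (RR g) s) (s x) (t s x) N := ⟨N₀, h2⟩
  have ho : o s x = Nat.find hexN := dif_pos hexN
  have h3 := Nat.find_spec hexN
  have hinv : ∀ p, s p = μ⁻¹ * φ (z p) + -(μ⁻¹ * ν) := by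
    intro p
    rw [hsz p, mul_add, inv_mul_cancel_left₀ hμ, add_neg_cancel_right]
  have h4 := aff g (AlgebraicClosure ℚ) s (fun p => φ (z p)) 1 (φ e) μ⁻¹ (-(μ⁻¹ * ν)) one_ne_zero
    hφe (inv_ne_zero hμ) hinv x (t s x) (φ (y x)) _ (ht s x) hy h3
  have h5 := h4
  rw [← hmap] at h5
  refine ⟨Nat.find hexN, ?_, (bch K (AlgebraicClosure ℚ) φ _ (z x) (y x) _ hodd).2 h5⟩
  rw [← ho]
  exact le_trans (Finset.le_sup (f := fun x => o s x) (Finset.mem_univ x))
    (Finset.le_sup (f := fun s => Finset.univ.sup (fun x => o s x)) hs)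

end Pool.Agent.MNT.H38
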