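import Pool.Agent.MNT.StmtsT

/-!
# Squad MNT, row TRE: the tree inequality for laminar families
-/

set_option autoImplicit false

namespace Pool.Agent.MNT.H38

open scoped Classical

section gen

variable (V : Type) [Fintype V] [PartialOrder V] [OrderTop V]

/-- the edges -/
noncomputable def S0 : Finset V := Finset.univ.filter fun c => c ≠ ⊤

variable {V}

theorem mem_S0 (c : V) : c ∈ S0 V ↔ c ≠ ⊤ := by
  unfold S0
  rw [Finset.mem_filter]
  simp

theorem qq_eq (l X : V → ℝ) : QQ l X = ∑ c ∈ S0 V, l c * MM X c ^ 2 := rfl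

end gen

section lam

variable {P : Type} [Fintype P] [DecidableEq P]

/-- the clusters which contain a root -/
abbrev VV (Λ : Lam P) (R : Finset P) : Type := {d : Finset P // d ∈ Λ.V ∧ (d ∩ R).Nonempty}

/-- the greatest cluster -/
@[reducible] def topI (Λ : Lam P) (R : Finset P) (hR : R.Nonempty) : OrderTop (VV Λ R) where
  top := ⟨Finset.univ, Λ.top_mem, by rw [Finset.univ_inter]; exact hR⟩
  le_top := fun c => Finset.subset_univ c.1

/-- sums over the clusters with a root -/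
theorem sumV (Λ : Lam P) (R : Finset P) {A : Type} [AddCommMonoid A] (f : Finset P → A)
    (hf : ∀ c ∈ Λ.V, f c ≠ 0 → (c ∩ R).Nonempty) : ∑ c ∈ Λ.V, f c = ∑ a : VV Λ R, f a.1 := by
  rw [← Finset.sum_filter_of_ne hf]
  exact Finset.sum_subtype _ (fun x => by rw [Finset.mem_filter]) f

/-- the tree of the clusters with a root -/
theorem exT (lpa : LpaStmt) (Λ : Lam P) (R : Finset P) (hR : R.Nonempty) :
    let _ := topI Λ R hR
    ∃ T : Tree (VV Λ R), ∀ u c : VV Λ R, c ∈ T.kids u ↔ Λ.Kid u.1 c.1 := by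
  let _ := topI Λ R hR
  have htop : ∀ c : VV Λ R, c ≠ ⊤ → c.1 ≠ Finset.univ := fun c hc h => hc (Subtype.ext h)
  have hex : ∀ c : VV Λ R, ∃ d : VV Λ R, c ≠ ⊤ → Λ.Kid d.1 c.1 := by
    intro c
    by_cases hc : c = ⊤
    · exact ⟨c, fun h => absurd hc h⟩
    · obtain ⟨d, hd, hcd, hmin⟩ := lpa P Λ c.1 c.2.1 (htop c hc)
      have hne : (d ∩ R).Nonempty := by
        obtain ⟨p, hp⟩ := c.2.2
        rw [Finset.mem_inter] at hp
        exact ⟨p, Finset.mem_inter.2 ⟨hcd.1 hp.1, hp.2⟩⟩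
      exact ⟨⟨d, hd, hne⟩, fun _ => ⟨c.2.1, hcd, hmin⟩⟩
  choose par hpar using hex
  refine ⟨⟨par, ?_, ?_⟩, ?_⟩
  · intro c hc
    exact (hpar c hc).2.1
  · intro c d hcd
    have hc : c ≠ ⊤ := ne_top_of_lt hcd
    exact (hpar c hc).2.2 d.1 d.2.1 hcd
  · intro u c
    rw [Tree.mem_kids]
    constructor
    · rintro ⟨hc, hu⟩
      have h := hpar c hc
      have hu' : par c = u := hu
      rwa [hu'] at h
    · intro h
      have hc : c ≠ ⊤ := by
        intro h0
        have h1 : c.1 = Finset.univ := by rw [h0]; rfl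
        have h2 := h.2.1
        rw [h1] at h2
        exact h2.2 (Finset.subset_univ _)
      refine ⟨hc, ?_⟩
      show par c = u
      have h1 := hpar c hc
      exact Subtype.ext (Finset.Subset.antisymm (h1.2.2 u.1 u.2.1 h.2.1)
        (h.2.2 (par c).1 (par c).2.1 h1.2.1))

/-- sums over the children -/
theorem kidsum {Λ : Lam P} {R : Finset P} {hR : R.Nonempty} {A : Type} [AddCommMonoid A]
    (T : @Tree (VV Λ R) _ (topI Λ R hR))
    (hT : ∀ u c : VV Λ R, c ∈ @Tree.kids _ _ _ (topI Λ R hR) T u ↔ Λ.Kid u.1 c.1)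
    (u : VV Λ R) (f : Finset P → A) : ∑ c ∈ @Tree.kids _ _ _ (topI Λ R hR) T u, f c.1 =
      ∑ a : VV Λ R, if Λ.Kid u.1 a.1 then f a.1 else 0 := by
  have h : @Tree.kids _ _ _ (topI Λ R hR) T u =
      Finset.univ.filter (fun a : VV Λ R => Λ.Kid u.1 a.1) := by
    ext a
    rw [hT, Finset.mem_filter]
    simp
  rw [h, Finset.sum_filter]

theorem kidsum' {Λ : Lam P} {R : Finset P} {hR : R.Nonempty} {A : Type} [AddCommMonoid A]
    (T : @Tree (VV Λ R) _ (topI Λ R hR))
    (hT : ∀ u c : VV Λ R, c ∈ @Tree.kids _ _ _ (topI Λ R hR) T u ↔ Λ.Kid u.1 c.1)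
    (u : VV Λ R) (f : Finset P → A) : ∑ c ∈ @Tree.kids _ _ _ (topI Λ R hR) T u, f c.1 =
      ∑ s ∈ Λ.V with Λ.Kid u.1 s ∧ (s ∩ R).Nonempty, f s := by
  rw [kidsum T hT u f, Finset.sum_filter, sumV Λ R]
  · apply Finset.sum_congr rfl
    intro a _
    by_cases h : Λ.Kid u.1 a.1
    · rw [if_pos h, if_pos ⟨h, a.2.2⟩]
    · rw [if_neg h, if_neg (fun h' => h h'.1)]
  · intro c _ hc
    by_contra h
    exact hc (if_neg (fun h' => h h'.2))

theorem exLab (lks : LksStmt) (lgu : LguStmt) (g : ℕ) (Λ : Lam P) (R : Finset P)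
    (hRc : R.card = 2 * g + 1) (hP : Fintype.card P = 2 * g + 1 + (4 * g + 8)) (hR : R.Nonempty)
    (T : @Tree (VV Λ R) _ (topI Λ R hR))
    (hT : ∀ u c : VV Λ R, c ∈ @Tree.kids _ _ _ (topI Λ R hR) T u ↔ Λ.Kid u.1 c.1) :
    @Lab (VV Λ R) _ _ (topI Λ R hR) g T (fun d => Λ.Grd R d.1) (fun d => (d.1 ∩ R).card)
      (fun d => (d.1 \ R).card) := by
  let _ := topI Λ R hR
  have hcard : ∀ d : VV Λ R, (d.1 ∩ R).card + (d.1 \ R).card = d.1.card := fun d =>
    Finset.card_inter_add_card_sdiff d.1 R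
  have hb : ∀ d : VV Λ R, (d.1 \ R).card ≤ 4 * g + 8 := by
    intro d
    have h1 : d.1 \ R ⊆ Rᶜ := by
      intro x hx
      rw [Finset.mem_sdiff] at hx
      exact Finset.mem_compl.2 hx.2
    have h2 := Finset.card_le_card h1
    rw [Finset.card_compl, hP, hRc] at h2
    omega
  have hsumR : ∀ u : VV Λ R, ∑ c ∈ T.kids u, (c.1 ∩ R).card =
      ∑ s ∈ Λ.V with Λ.Kid u.1 s, (s ∩ R).card := by
    intro u
    rw [kidsum T hT u (fun c => (c ∩ R).card), Finset.sum_filter, sumV Λ R]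
    intro c _ hc
    rw [← Finset.card_pos]
    by_contra h
    apply hc
    by_cases hk : Λ.Kid u.1 c
    · rw [if_pos hk]; omega
    · rw [if_neg hk]
  have hodd : ¬ Even (R.card) := by
    rw [hRc]
    rintro ⟨k, hk⟩
    omega
  refine ⟨?_, ?_, hb, ?_, ?_, ?_, ?_, ?_, ?_, ?_, ?_⟩
  · intro v
    exact Finset.card_pos.2 v.2.2
  · intro v
    show (v.1 ∩ R).card ≤ 2 * g + 1
    rw [← hRc]
    exact Finset.card_le_card Finset.inter_subset_right
  · intro v
    rw [hcard v]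
    exact Λ.two_le v.1 v.2.1
  · intro v hv h1
    by_contra h2
    apply hv
    apply Subtype.ext
    show v.1 = Finset.univ
    rw [← Finset.card_eq_iff_eq_univ, hP, ← hcard v]
    have h3 : (v.1 ∩ R).card = 2 * g + 1 := h1
    have h4 := hb v
    have h5 : ¬ (v.1 \ R).card < 4 * g + 8 := h2
    omega
  · intro v
    show ∑ c ∈ T.kids v, (c.1 ∩ R).card ≤ (v.1 ∩ R).card
    rw [hsumR v]
    exact (lks P Λ R v.1 v.2.1).1
  · intro v
    show ∑ c ∈ T.kids v, (c.1 \ R).card ≤ (v.1 \ R).card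
    rw [kidsum' T hT v (fun c => (c \ R).card)]
    have h1 := (lks P Λ Rᶜ v.1 v.2.1).1
    simp only [← Finset.sdiff_eq_inter_compl] at h1
    refine le_trans (Finset.sum_le_sum_of_subset ?_) h1
    intro s hs
    rw [Finset.mem_filter] at hs ⊢
    exact ⟨hs.1, hs.2.1⟩
  · by_contra h
    have h1 := (lgu P Λ R Finset.univ Λ.top_mem h).2.2
    rw [Finset.univ_inter] at h1
    exact hodd h1
  · intro v hv
    exact (lgu P Λ R v.1 v.2.1 hv).2.2
  · intro v hv
    show ∑ c ∈ T.kids v, (c.1 ∩ R).card = (v.1 ∩ R).card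
    rw [hsumR v]
    exact (lks P Λ R v.1 v.2.1).2 (lgu P Λ R v.1 v.2.1 hv).1
  · intro v hv c hc
    exact (lgu P Λ R v.1 v.2.1 hv).2.1 c.1 ((hT v c).1 hc)

/-- splitting of a sum over all clusters -/
theorem split (Λ : Lam P) (R : Finset P) (hR : R.Nonempty) (F : Finset P → ℝ) :
    let _ := topI Λ R hR
    ∑ d ∈ Λ.V, F d = F Finset.univ + ∑ c ∈ S0 (VV Λ R), F c.1 +
      ∑ d ∈ Λ.V with ¬ (d ∩ R).Nonempty, F d := by
  let _ := topI Λ R hR
  show ∑ d ∈ Λ.V, F d = F Finset.univ + ∑ c ∈ S0 (VV Λ R), F c.1 +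
      ∑ d ∈ Λ.V with ¬ (d ∩ R).Nonempty, F d
  rw [← Finset.sum_filter_add_sum_filter_not Λ.V (fun d => (d ∩ R).Nonempty) F]
  have h1 : ∑ d ∈ Λ.V with (d ∩ R).Nonempty, F d = ∑ a : VV Λ R, F a.1 :=
    Finset.sum_subtype _ (fun x => by rw [Finset.mem_filter]) F
  have h2 : S0 (VV Λ R) = Finset.univ.erase ⊤ := by
    ext c
    rw [mem_S0, Finset.mem_erase]
    simp
  rw [h1, ← Finset.add_sum_erase Finset.univ (fun a : VV Λ R => F a.1) (Finset.mem_univ ⊤), h2]
  rfl

end lam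

theorem tre (trf : TrfStmt) (lpa : LpaStmt) (lks : LksStmt) (lgu : LguStmt) (lft : LftStmt)
    (enl : EnlStmt) : TreStmt := by
  intro g hg
  obtain ⟨ε, hε, H⟩ := trf g hg
  have hgam : 0 < gam g := by unfold gam; positivity
  refine ⟨min ε (gam g), lt_min hε hgam, ?_⟩
  intro P _ _ R hRc hP Λ
  have hR : R.Nonempty := Finset.card_pos.1 (by omega)
  let _ := topI Λ R hR
  obtain ⟨T, hT⟩ := exT lpa Λ R hR
  have hLab := exLab lks lgu g Λ R hRc hP hR T hT
  have hl : ∀ c : VV Λ R, c ≠ ⊤ → 0 < Λ.l c.1 := fun c hc =>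
    Λ.pos c.1 c.2.1 (fun h => hc (Subtype.ext h))
  obtain ⟨D, hD0, hDG, hD1, hmain⟩ := H (VV Λ R) T _ _ _ (fun c => Λ.l c.1) hl hLab
  obtain ⟨foot, hf1, hf2⟩ := lft P Λ R hR
  let ft : P → VV Λ R := fun x => ⟨foot x, (hf1 x).1, (hf1 x).2.1⟩
  let μ : P → Finset P → ℝ := fun x c =>
    if h : c ∈ Λ.V ∧ (c ∩ R).Nonempty then D (ft x) ⟨c, h⟩ else 0
  have hμ : ∀ x (a : VV Λ R), μ x a.1 = D (ft x) a := fun x a => dif_pos a.2
  have hμ0 : ∀ x c, μ x c ≠ 0 → (c ∩ R).Nonempty := by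
    intro x c h
    by_contra h'
    exact h (dif_neg (fun h2 => h' h2.2))
  have hμ1 : ∀ x, ∑ c ∈ Λ.V, μ x c = 1 := by
    intro x
    rw [sumV Λ R _ (fun c _ h => hμ0 x c h)]
    simp only [hμ]
    exact hD1 (ft x)
  refine ⟨μ, ?_, ?_⟩
  · intro x _
    refine ⟨?_, ?_, hμ1 x⟩
    · intro c hc
      by_cases h : (c ∩ R).Nonempty
      · rw [hμ x ⟨c, hc, h⟩]
        exact hD0 _ _
      · by_contra h'
        have h2 : μ x c ≠ 0 := fun h0 => h' (by rw [h0])
        exact h (hμ0 x c h2)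
    · intro c hc h
      have h1 := hμ0 x c h
      rw [hμ x ⟨c, hc, h1⟩] at h
      exact hDG _ _ h
  · -- the main computation
    let M : P → Finset P → ℝ := fun x e => ∑ c ∈ Λ.V with c ⊆ e, μ x c
    let TT : Finset P → ℝ := fun e => ∑ x ∈ Rᶜ, (M x e ^ 2 - 2 * (if x ∈ e then 1 else 0) * M x e)
    let X : VV Λ R → VV Λ R → ℝ := fun u j => D u j - dl u j
    have hEn : ∑ x ∈ Rᶜ, Λ.En (μ x) x = ∑ e ∈ Λ.V, Λ.l e * TT e := by
      have h1 : ∀ x ∈ Rᶜ, Λ.En (μ x) x = ∑ e ∈ Λ.V, Λ.l e *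
          (M x e ^ 2 - 2 * (if x ∈ e then 1 else 0) * M x e) := fun x _ => enl P Λ (μ x) x (hμ1 x)
      rw [Finset.sum_congr rfl h1, Finset.sum_comm]
      apply Finset.sum_congr rfl
      intro e _
      rw [Finset.mul_sum]
    have hRcc : (Rᶜ).card = 4 * g + 8 := by
      rw [Finset.card_compl, hP, hRc]
      omega
    have hTuniv : TT Finset.univ = -(4 * (g : ℝ) + 8) := by
      have h1 : ∀ x ∈ Rᶜ, (M x Finset.univ ^ 2 -
          2 * (if x ∈ (Finset.univ : Finset P) then 1 else 0) * M x Finset.univ) = (-1 : ℝ) := by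
        intro x _
        have h2 : M x Finset.univ = 1 := by
          show ∑ c ∈ Λ.V with c ⊆ Finset.univ, μ x c = 1
          rw [Finset.filter_true_of_mem (fun c _ => Finset.subset_univ c)]
          exact hμ1 x
        rw [h2, if_pos (Finset.mem_univ x)]
        norm_num
      show ∑ x ∈ Rᶜ, _ = _
      rw [Finset.sum_congr rfl h1, Finset.sum_const, hRcc, nsmul_eq_mul]
      push_cast
      ring
    have hTno : ∀ e ∈ Λ.V, ¬ (e ∩ R).Nonempty → TT e = 0 := by
      intro e _ hno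
      apply Finset.sum_eq_zero
      intro x _
      have h2 : M x e = 0 := by
        apply Finset.sum_eq_zero
        intro c hc
        rw [Finset.mem_filter] at hc
        by_contra h
        obtain ⟨p, hp⟩ := hμ0 x c h
        rw [Finset.mem_inter] at hp
        exact hno ⟨p, Finset.mem_inter.2 ⟨hc.2 hp.1, hp.2⟩⟩
      rw [h2]
      ring
    have hfoot : ∀ x (e : VV Λ R), x ∈ e.1 ↔ ft x ≤ e := by
      intro x e
      constructor
      · intro h
        exact (hf1 x).2.2.2 e.1 e.2.1 e.2.2 h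
      · intro h
        exact h (hf1 x).2.2.1
    have hMM : ∀ x (e : VV Λ R), MM (X (ft x)) e = M x e.1 - (if x ∈ e.1 then 1 else 0) := by
      intro x e
      have h0 : MM (X (ft x)) e = ∑ j, ((if j ≤ e then D (ft x) j else 0) -
          (if j ≤ e then dl (ft x) j else 0)) := by
        rw [MM, Finset.sum_filter]
        apply Finset.sum_congr rfl
        intro j _
        by_cases h : j ≤ e
        · simp only [h, if_true]; rfl
        · simp only [h, if_false, sub_zero]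
      rw [h0, Finset.sum_sub_distrib]
      have h1 : ∑ j, (if j ≤ e then D (ft x) j else 0) = M x e.1 := by
        show _ = ∑ c ∈ Λ.V with c ⊆ e.1, μ x c
        rw [Finset.sum_filter, sumV Λ R]
        · apply Finset.sum_congr rfl
          intro a _
          by_cases h : a ≤ e
          · rw [if_pos h, if_pos (show a.1 ⊆ e.1 from h), hμ]
          · rw [if_neg h, if_neg (show ¬ a.1 ⊆ e.1 from h)]
        · intro c _ hc
          by_cases h : c ⊆ e.1
          · rw [if_pos h] at hc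
            exact hμ0 x c hc
          · rw [if_neg h] at hc
            exact absurd rfl hc
      have h2 : ∑ j, (if j ≤ e then dl (ft x) j else 0) = if x ∈ e.1 then 1 else 0 := by
        by_cases h : x ∈ e.1
        · rw [if_pos h, Finset.sum_eq_single (ft x)]
          · rw [if_pos ((hfoot x e).1 h)]
            exact if_pos rfl
          · intro b _ hb
            by_cases h3 : b ≤ e
            · rw [if_pos h3]
              exact if_neg hb
            · rw [if_neg h3]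
          · intro h3
            exact absurd (Finset.mem_univ _) h3
        · rw [if_neg h]
          apply Finset.sum_eq_zero
          intro b _
          by_cases h3 : b ≤ e
          · rw [if_pos h3]
            refine if_neg ?_
            rintro rfl
            exact h ((hfoot x e).2 h3)
          · rw [if_neg h3]
      rw [h1, h2]
    have hTe : ∀ e : VV Λ R, TT e.1 = ∑ x ∈ Rᶜ, MM (X (ft x)) e ^ 2 - ((e.1 \ R).card : ℝ) := by
      intro e
      have h1 : ((e.1 \ R).card : ℝ) = ∑ x ∈ Rᶜ, (if x ∈ e.1 then (1 : ℝ) else 0) := by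
        rw [← Finset.sum_filter, Finset.sum_const, nsmul_eq_mul, mul_one]
        congr 2
        ext x
        rw [Finset.mem_sdiff, Finset.mem_filter, Finset.mem_compl]
        tauto
      rw [h1, ← Finset.sum_sub_distrib]
      apply Finset.sum_congr rfl
      intro x _
      rw [hMM x e]
      by_cases h : x ∈ e.1
      · rw [if_pos h]; ring
      · rw [if_neg h]; ring
    have hQQ : ∑ c ∈ S0 (VV Λ R), Λ.l c.1 * ∑ x ∈ Rᶜ, MM (X (ft x)) c ^ 2 =
        ∑ u : VV Λ R, (((u.1 \ R).card : ℝ) - ∑ c ∈ T.kids u, ((c.1 \ R).card : ℝ)) *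
          QQ (fun c : VV Λ R => Λ.l c.1) (X u) := by
      have h1 : ∑ c ∈ S0 (VV Λ R), Λ.l c.1 * ∑ x ∈ Rᶜ, MM (X (ft x)) c ^ 2 =
          ∑ x ∈ Rᶜ, QQ (fun c : VV Λ R => Λ.l c.1) (X (ft x)) := by
        simp only [qq_eq]
        rw [Finset.sum_comm]
        apply Finset.sum_congr rfl
        intro c _
        rw [Finset.mul_sum]
      rw [h1, ← Finset.sum_fiberwise Rᶜ ft]
      apply Finset.sum_congr rfl
      intro u _
      have h2 : ∀ x ∈ Rᶜ.filter (fun x => ft x = u),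
          QQ (fun c : VV Λ R => Λ.l c.1) (X (ft x)) =
            QQ (fun c : VV Λ R => Λ.l c.1) (X u) := by
        intro x hx
        rw [(Finset.mem_filter.1 hx).2]
      rw [Finset.sum_congr rfl h2, Finset.sum_const, nsmul_eq_mul]
      congr 1
      have h3 := hf2 u.1 u.2.1 u.2.2
      rw [← kidsum' T hT u (fun s => ((s \ R).card : ℝ))] at h3
      rw [← h3]
      congr 2
      ext x
      rw [Finset.mem_filter, Finset.mem_filter, Finset.mem_compl]
      constructor
      · rintro ⟨h4, h5⟩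
        exact ⟨Finset.mem_univ _, h4, congrArg Subtype.val h5⟩
      · rintro ⟨_, h4, h5⟩
        exact ⟨h4, Subtype.ext h5⟩
    have hsum : ∑ e ∈ Λ.V, Λ.l e * TT e = -(4 * (g : ℝ) + 8) * Λ.l Finset.univ +
        (∑ u : VV Λ R, (((u.1 \ R).card : ℝ) - ∑ c ∈ T.kids u, ((c.1 \ R).card : ℝ)) *
          QQ (fun c : VV Λ R => Λ.l c.1) (X u) -
        ∑ c ∈ S0 (VV Λ R), Λ.l c.1 * ((c.1 \ R).card : ℝ)) := by
      rw [split Λ R hR (fun e => Λ.l e * TT e), hTuniv]
      have h1 : ∑ d ∈ Λ.V with ¬ (d ∩ R).Nonempty, Λ.l d * TT d = 0 := by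
        apply Finset.sum_eq_zero
        intro d hd
        rw [Finset.mem_filter] at hd
        rw [hTno d hd.1 hd.2, mul_zero]
      have h2 : ∑ c ∈ S0 (VV Λ R), Λ.l c.1 * TT c.1 =
          ∑ c ∈ S0 (VV Λ R), Λ.l c.1 * ∑ x ∈ Rᶜ, MM (X (ft x)) c ^ 2 -
          ∑ c ∈ S0 (VV Λ R), Λ.l c.1 * ((c.1 \ R).card : ℝ) := by
        rw [← Finset.sum_sub_distrib]
        apply Finset.sum_congr rfl
        intro c _
        rw [hTe c]
        ring
      rw [h1, h2, hQQ]
      ring
    have hlen : Λ.len = ∑ c ∈ S0 (VV Λ R), Λ.l c.1 +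
        ∑ d ∈ Λ.V with ¬ (d ∩ R).Nonempty, Λ.l d := by
      have h1 := split Λ R hR (fun e => if e ≠ Finset.univ then Λ.l e else 0)
      rw [← Finset.sum_filter] at h1
      have h2 : Λ.len = ∑ d ∈ Λ.V with d ≠ Finset.univ, Λ.l d := rfl
      rw [h2, h1, if_neg (fun h => h rfl), zero_add]
      congr 1
      · apply Finset.sum_congr rfl
        intro c hc
        rw [mem_S0] at hc
        exact if_pos (fun h => hc (Subtype.ext h))
      · apply Finset.sum_congr rfl
        intro d hd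
        rw [Finset.mem_filter] at hd
        refine if_pos ?_
        rintro rfl
        exact hd.2 (by rw [Finset.univ_inter]; exact hR)
    have hR1 := split Λ R hR (fun d => Λ.l d * w0 g (d ∩ R).card (d \ R).card)
    have hwuniv : w0 g ((Finset.univ : Finset P) ∩ R).card ((Finset.univ : Finset P) \ R).card =
        -(3 * (g : ℝ) * (4 * g + 8)) := by
      rw [Finset.univ_inter, ← Finset.compl_eq_univ_sdiff, hRc, hRcc]
      unfold w0 gam
      push_cast
      field_simp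
      ring
    have hno : ∑ d ∈ Λ.V with ¬ (d ∩ R).Nonempty, gam g * Λ.l d ≤
        ∑ d ∈ Λ.V with ¬ (d ∩ R).Nonempty, Λ.l d * w0 g (d ∩ R).card (d \ R).card := by
      apply Finset.sum_le_sum
      intro d hd
      rw [Finset.mem_filter] at hd
      have hne : d ≠ Finset.univ := by
        rintro rfl
        exact hd.2 (by rw [Finset.univ_inter]; exact hR)
      have hld := Λ.pos d hd.1 hne
      have h0 : (d ∩ R).card = 0 := by
        rw [Finset.card_eq_zero]
        exact Finset.not_nonempty_iff_eq_empty.1 hd.2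
      have h2 : 2 ≤ (d \ R).card := by
        have h3 := Finset.card_inter_add_card_sdiff d R
        have h4 := Λ.two_le d hd.1
        omega
      rw [h0]
      have h5 : (2 : ℝ) ≤ ((d \ R).card : ℝ) := by exact_mod_cast h2
      have h6 : gam g ≤ w0 g 0 (d \ R).card := by
        unfold w0
        push_cast
        have : 1 ≤ ((d \ R).card : ℝ) * (((d \ R).card : ℝ) - 1) / 2 := by nlinarith
        nlinarith
      rw [mul_comm]
      exact mul_le_mul_of_nonneg_left h6 hld.le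
    have hlV : 0 ≤ ∑ c ∈ S0 (VV Λ R), Λ.l c.1 :=
      Finset.sum_nonneg (fun c hc => (hl c ((mem_S0 c).1 hc)).le)
    have hlN : 0 ≤ ∑ d ∈ Λ.V with ¬ (d ∩ R).Nonempty, Λ.l d := by
      apply Finset.sum_nonneg
      intro d hd
      rw [Finset.mem_filter] at hd
      refine (Λ.pos d hd.1 ?_).le
      rintro rfl
      exact hd.2 (by rw [Finset.univ_inter]; exact hR)
    have hm1 : min ε (gam g) * ∑ c ∈ S0 (VV Λ R), Λ.l c.1 ≤
        ε * ∑ c ∈ S0 (VV Λ R), Λ.l c.1 :=
      mul_le_mul_of_nonneg_right (min_le_left _ _) hlV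
    have hm2 : min ε (gam g) * ∑ d ∈ Λ.V with ¬ (d ∩ R).Nonempty, Λ.l d ≤
        ∑ d ∈ Λ.V with ¬ (d ∩ R).Nonempty, gam g * Λ.l d := by
      rw [← Finset.mul_sum]
      exact mul_le_mul_of_nonneg_right (min_le_right _ _) hlN
    have hw1 : ∑ c ∈ S0 (VV Λ R), Λ.l c.1 * w1 g (c.1 ∩ R).card (c.1 \ R).card =
        ∑ c ∈ S0 (VV Λ R), Λ.l c.1 * w0 g (c.1 ∩ R).card (c.1 \ R).card +
          3 * g * ∑ c ∈ S0 (VV Λ R), Λ.l c.1 * ((c.1 \ R).card : ℝ) := by
      rw [Finset.mul_sum, ← Finset.sum_add_distrib]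
      apply Finset.sum_congr rfl
      intro c _
      unfold w1
      ring
    have hmain' : ε * ∑ c ∈ S0 (VV Λ R), Λ.l c.1 +
        3 * g * ∑ u : VV Λ R, (((u.1 \ R).card : ℝ) - ∑ c ∈ T.kids u, ((c.1 \ R).card : ℝ)) *
          QQ (fun c : VV Λ R => Λ.l c.1) (X u) ≤
        ∑ c ∈ S0 (VV Λ R), Λ.l c.1 * w1 g (c.1 ∩ R).card (c.1 \ R).card := hmain
    rw [hEn, hsum, hR1, hlen]
    simp only [hwuniv]
    rw [hw1] at hmain'
    nlinarith [hmain', hm1, hm2, hno]

end Pool.Agent.MNT.H38
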